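import Mathlib

set_option autoImplicit false
open Set Metric

namespace Pool.Agent.H.MP_c4f5bb_an

section metric
variable {X : Type} [MetricSpace X]

def Conn (S : Set X) (s : ℝ) : X → X → Prop :=
  Relation.ReflTransGen fun x y => x ∈ S ∧ y ∈ S ∧ dist x y ≤ s

lemma Conn.map {S T : Set X} {s t ε : ℝ} {f : X → X} (hf : ∀ x ∈ S, f x ∈ T ∧ dist x (f x) ≤ ε)
    (hst : s + 2 * ε ≤ t) {i j : X} (h : Conn S s i j) : Conn T t (f i) (f j) := by
  induction h with
  | refl => exact Relation.ReflTransGen.refl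
  | @tail x y _ hxy ih =>
    refine Relation.ReflTransGen.tail ih ⟨(hf x hxy.1).1, (hf y hxy.2.1).1, ?_⟩
    have h1 := dist_triangle4 (f x) x y (f y)
    have h2 := (hf x hxy.1).2
    have h3 := (hf y hxy.2.1).2
    rw [dist_comm] at h2
    linarith [hxy.2.2]

lemma Conn.dist_le {S : Set X} (hS : S.Finite) {n : ℕ} (hn : S.ncard ≤ n) {s : ℝ} (hs : 0 ≤ s)
    {i j : X} (hi : i ∈ S) (h : Conn S s i j) : dist i j ≤ n * s := by
  have gap : ∃ k : Fin n, ∀ x ∈ S, dist i x ≤ ((k : ℕ) + 1) * s → dist i x ≤ (k : ℕ) * s := by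
    by_contra hc
    push Not at hc
    choose f hf h1 h2 using hc
    have hinj : Function.Injective f := by
      intro a b hab
      have e1 := h1 a
      have e2 := h2 b
      have e3 := h1 b
      have e4 := h2 a
      rw [hab] at e1 e4
      have l1 : ((b : ℕ) : ℝ) < (a : ℕ) + 1 := lt_of_mul_lt_mul_right (e2.trans_le e1) hs
      have l2 : ((a : ℕ) : ℝ) < (b : ℕ) + 1 := lt_of_mul_lt_mul_right (e4.trans_le e3) hs
      have l1' : (b : ℕ) < a + 1 := by exact_mod_cast l1
      have l2' : (a : ℕ) < b + 1 := by exact_mod_cast l2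
      exact Fin.ext (by omega)
    have hni : i ∉ range f := by
      rintro ⟨k, hk⟩
      have := h2 k
      rw [hk, dist_self] at this
      exact absurd this (not_lt.2 (by positivity))
    have hsub : insert i (range f) ⊆ S := insert_subset hi (range_subset_iff.2 hf)
    have := ncard_le_ncard hsub hS
    rw [ncard_insert_of_notMem hni, ncard_range_of_injective hinj] at this
    simp at this
    omega
  obtain ⟨k, hk⟩ := gap
  have : dist i j ≤ (k : ℕ) * s := by
    induction h with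
    | refl => rw [dist_self]; positivity
    | @tail x y _ hxy ih =>
      refine hk y hxy.2.1 ?_
      have := dist_triangle i x y
      linarith [hxy.2.2]
  refine this.trans ?_
  gcongr
  exact_mod_cast k.2.le

def lev (S : Set X) (i j : X) : Set ℝ :=
  insert 0 {τ | 0 ≤ τ ∧ τ ≤ 1 ∧ Conn S ((2 - τ) * S.infsep) i j}

noncomputable def phi (S : Set X) (i j : X) : ℝ := sSup (lev S i j)

lemma lev_le {S : Set X} {i j : X} : ∀ τ ∈ lev S i j, τ ≤ 1 := by
  rintro τ (rfl | h)
  · exact zero_le_one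
  · exact h.2.1

lemma lev_bdd (S : Set X) (i j : X) : BddAbove (lev S i j) := ⟨1, lev_le⟩

lemma phi_nonneg (S : Set X) (i j : X) : 0 ≤ phi S i j :=
  le_csSup (lev_bdd S i j) (mem_insert _ _)

lemma phi_le (S : Set X) (i j : X) : phi S i j ≤ 1 := csSup_le ⟨0, mem_insert _ _⟩ lev_le

lemma phi_self (S : Set X) (i : X) : phi S i i = 1 :=
  le_antisymm (phi_le S i i) (le_csSup (lev_bdd S i i)
    (mem_insert_of_mem _ ⟨zero_le_one, le_rfl, Relation.ReflTransGen.refl⟩))

lemma phi_eq {S : Set X} {a b : X} (ha : a ∈ S) (hb : b ∈ S) (hab : dist a b ≤ S.infsep) (j : X) :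
    phi S a j = phi S b j := by
  have key : ∀ a ∈ S, ∀ b ∈ S, dist a b ≤ S.infsep → lev S b j ⊆ lev S a j := by
    intro a ha b hb hab τ hτ
    rcases hτ with rfl | h
    · exact mem_insert _ _
    · refine mem_insert_of_mem _ ⟨h.1, h.2.1, Relation.ReflTransGen.head ⟨ha, hb, ?_⟩ h.2.2⟩
      have := S.infsep_nonneg
      nlinarith [h.2.1]
  unfold phi
  rw [Subset.antisymm (key b hb a ha (by rwa [dist_comm])) (key a ha b hb hab)]

lemma phi_near {S : Set X} (hS : S.Finite) {n : ℕ} (hn : S.ncard ≤ n) {i j : X} (hi : i ∈ S)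
    (h : phi S i j ≠ 0) : dist i j ≤ 2 * n * S.infsep := by
  by_contra hc
  apply h
  refine le_antisymm (csSup_le ⟨0, mem_insert _ _⟩ ?_) (phi_nonneg S i j)
  rintro τ (rfl | hτ)
  · exact le_rfl
  · exfalso
    apply hc
    have h0 := S.infsep_nonneg
    have h1 := hτ.2.2.dist_le hS hn (mul_nonneg (by linarith [hτ.2.1]) h0) hi
    refine h1.trans ?_
    have : (2 - τ) * S.infsep ≤ 2 * S.infsep := by gcongr; linarith [hτ.1]
    calc (n : ℝ) * ((2 - τ) * S.infsep) ≤ n * (2 * S.infsep) := by gcongr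
      _ = _ := by ring

lemma phi_lip {S T : Set X} {ε η : ℝ} {f : X → X} (hf : ∀ x ∈ S, f x ∈ T ∧ dist x (f x) ≤ ε)
    (hε : 0 ≤ ε) (hη : 0 ≤ η) (h1 : S.infsep ≤ T.infsep + 2 * ε) (h2 : 6 * ε ≤ η * T.infsep)
    (i j : X) : phi S i j ≤ phi T (f i) (f j) + η := by
  refine csSup_le ⟨0, mem_insert _ _⟩ ?_
  have h0 := phi_nonneg T (f i) (f j)
  rintro τ (rfl | hτ)
  · linarith
  · rcases le_total τ η with h | h
    · linarith
    · have : τ - η ≤ phi T (f i) (f j) := by
        refine le_csSup (lev_bdd _ _ _) (mem_insert_of_mem _ ⟨by linarith, by linarith [hτ.2.1],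
          hτ.2.2.map hf ?_⟩)
        have : (2 - τ) * S.infsep ≤ (2 - τ) * (T.infsep + 2 * ε) := by
          gcongr; linarith [hτ.2.1]
        nlinarith [hτ.1]
      linarith

end metric

variable {X : Type} [NormedAddCommGroup X] [NormedSpace ℝ X]

noncomputable def avg {ι : Type} (A : Finset ι) (φ : ι → ℝ) (p : ι → X) : X :=
  ∑ j ∈ A, (φ j / ∑ k ∈ A, φ k) • p j

lemma wsum {ι : Type} (A : Finset ι) (φ : ι → ℝ) (h1 : 1 ≤ ∑ k ∈ A, φ k) :
    ∑ j ∈ A, φ j / ∑ k ∈ A, φ k = 1 := by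
  rw [← Finset.sum_div, div_self (by linarith)]

lemma avg_near {ι : Type} (A : Finset ι) (φ : ι → ℝ) (p : ι → X) (h0 : ∀ j ∈ A, 0 ≤ φ j)
    (h1 : 1 ≤ ∑ k ∈ A, φ k) (c : X) (R : ℝ) (hR : ∀ j ∈ A, φ j ≠ 0 → ‖p j - c‖ ≤ R) :
    ‖avg A φ p - c‖ ≤ R := by
  have e : avg A φ p - c = ∑ j ∈ A, (φ j / ∑ k ∈ A, φ k) • (p j - c) := by
    simp only [smul_sub, Finset.sum_sub_distrib, ← Finset.sum_smul, wsum A φ h1, one_smul, avg]
  rw [e]
  refine (norm_sum_le _ _).trans ?_
  calc _ ≤ ∑ j ∈ A, (φ j / ∑ k ∈ A, φ k) * R := by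
        refine Finset.sum_le_sum fun j hj => ?_
        have := h0 j hj
        rw [norm_smul, Real.norm_of_nonneg (by positivity)]
        by_cases h : φ j = 0
        · simp [h]
        · exact mul_le_mul_of_nonneg_left (hR j hj h) (by positivity)
    _ = R := by rw [← Finset.sum_mul, wsum A φ h1, one_mul]

lemma avg_lip {ι : Type} (A : Finset ι) (φ ψ : ι → ℝ) (p q : ι → X)
    (g0 : ∀ j ∈ A, 0 ≤ ψ j) (g2 : ∀ j ∈ A, ψ j ≤ 1)
    (h1 : 1 ≤ ∑ k ∈ A, φ k) (g1 : 1 ≤ ∑ k ∈ A, ψ k) (η ε : ℝ) (hη : 0 ≤ η)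
    (hd : ∀ j ∈ A, |φ j - ψ j| ≤ η) (hpq : ∀ j ∈ A, ‖p j - q j‖ ≤ ε) (c : X) (R : ℝ) (hR0 : 0 ≤ R)
    (hR : ∀ j ∈ A, (φ j ≠ 0 ∨ ψ j ≠ 0) → ‖p j - c‖ ≤ R) :
    ‖avg A φ p - avg A ψ q‖ ≤ ε + A.card * ((A.card + 1) * η * R) := by
  have e : avg A φ p - avg A ψ q = (avg A ψ (fun j => p j - q j) - 0) +
      ∑ j ∈ A, (φ j / ∑ k ∈ A, φ k - ψ j / ∑ k ∈ A, ψ k) • (p j - c) := by
    simp only [smul_sub, sub_smul, Finset.sum_sub_distrib, ← Finset.sum_smul, wsum A φ h1,
      wsum A ψ g1, one_smul, avg]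
    abel
  rw [e]
  refine (norm_add_le _ _).trans (add_le_add
    (avg_near A ψ _ g0 g1 0 ε fun j hj _ => by simpa using hpq j hj) ?_)
  refine (norm_sum_le _ _).trans ?_
  rw [← nsmul_eq_mul]
  refine Finset.sum_le_card_nsmul _ _ _ fun j hj => ?_
  have hS : |∑ k ∈ A, φ k - ∑ k ∈ A, ψ k| ≤ A.card * η := by
    rw [← Finset.sum_sub_distrib, ← nsmul_eq_mul]
    exact (Finset.abs_sum_le_sum_abs _ _).trans (Finset.sum_le_card_nsmul _ _ _ hd)
  by_cases h : φ j ≠ 0 ∨ ψ j ≠ 0
  · rw [norm_smul, Real.norm_eq_abs]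
    refine mul_le_mul ?_ (hR j hj h) (norm_nonneg _) (by positivity)
    generalize ∑ k ∈ A, φ k = P at *
    generalize ∑ k ∈ A, ψ k = Q at *
    have e2 : φ j / P - ψ j / Q = (φ j - ψ j) / P - ψ j * (P - Q) / (P * Q) := by
      have : P ≠ 0 := by linarith
      have : Q ≠ 0 := by linarith
      field_simp; ring
    rw [e2]
    refine (abs_sub _ _).trans ?_
    have a1 : |(φ j - ψ j) / P| ≤ η := by
      rw [abs_div, abs_of_pos (show 0 < P by linarith)]
      exact (div_le_self (abs_nonneg _) h1).trans (hd j hj)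
    have a2 : |ψ j * (P - Q) / (P * Q)| ≤ A.card * η := by
      have hPQ : 1 ≤ P * Q := one_le_mul_of_one_le_of_one_le h1 g1
      rw [abs_div, abs_of_pos (show 0 < P * Q by linarith), abs_mul, abs_of_nonneg (g0 j hj)]
      refine (div_le_self (mul_nonneg (g0 j hj) (abs_nonneg _)) hPQ).trans ?_
      exact (mul_le_of_le_one_left (abs_nonneg _) (g2 j hj)).trans hS
    linarith
  · push Not at h
    rw [h.1, h.2]
    simp only [zero_div, sub_self, zero_smul, norm_zero]
    positivity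

noncomputable def pt {S : Set X} (hS : S.Finite) (i : X) : X := avg hS.toFinset (phi S i) id

lemma sum_ge {ι : Type} (A : Finset ι) (φ : ι → ℝ) (h0 : ∀ j ∈ A, 0 ≤ φ j) {i : ι} (hi : i ∈ A)
    (h : φ i = 1) : 1 ≤ ∑ k ∈ A, φ k := h ▸ Finset.single_le_sum h0 hi

lemma pt_near {S : Set X} (hS : S.Finite) {n : ℕ} (hn : S.ncard ≤ n) {i : X} (hi : i ∈ S) :
    dist i (pt hS i) ≤ 2 * n * S.infsep := by
  rw [dist_comm, dist_eq_norm]
  refine avg_near hS.toFinset (phi S i) id (fun j _ => phi_nonneg _ _ _)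
    (sum_ge _ _ (fun j _ => phi_nonneg _ _ _) (hS.mem_toFinset.2 hi) (phi_self S i)) i _
    fun j _ h => ?_
  rw [id, ← dist_eq_norm, dist_comm]
  exact phi_near hS hn hi h

open Classical in
noncomputable def ret (n : ℕ) (S : Set X) : Set X :=
  if h : S.Finite ∧ S.ncard = n then pt h.1 '' S else S

lemma ret_of {n : ℕ} {S : Set X} (hS : S.Finite) (hn : S.ncard = n) : ret n S = pt hS '' S := by
  unfold ret; rw [dif_pos ⟨hS, hn⟩]

lemma ret_of_ne {n : ℕ} {S : Set X} (hn : S.ncard ≠ n) : ret n S = S := by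
  unfold ret; rw [dif_neg (fun h => hn h.2)]

lemma ret_card {n : ℕ} (h2 : 2 ≤ n) {S : Set X} (hne : S.Nonempty) (hS : S.Finite)
    (hn : S.ncard ≤ n) : (ret n S).Nonempty ∧ (ret n S).Finite ∧ (ret n S).ncard ≤ n - 1 := by
  by_cases h : S.ncard = n
  · rw [ret_of hS h]
    refine ⟨hne.image _, hS.image _, ?_⟩
    have hnt : S.Nontrivial := by
      have := hS.to_subtype
      exact one_lt_ncard_iff_nontrivial.1 (by omega)
    obtain ⟨a, ha, b, hb, hab, hd⟩ := hS.infsep_exists_of_nontrivial hnt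
    have e : pt hS a = pt hS b := by
      unfold pt
      congr 1
      funext j
      exact phi_eq ha hb hd.ge j
    have hsub : pt hS '' S ⊆ pt hS '' (S \ {a}) := by
      rintro _ ⟨x, hx, rfl⟩
      by_cases hxa : x = a
      · exact ⟨b, ⟨hb, fun h => hab (Eq.symm h)⟩, by rw [hxa, e]⟩
      · exact ⟨x, ⟨hx, hxa⟩, rfl⟩
    have h3 := ncard_le_ncard hsub ((hS.subset diff_subset).image _)
    have h4 := ncard_image_le (f := pt hS) (hS.subset (diff_subset (t := {a})))
    rw [ncard_diff_singleton_of_mem ha] at h4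
    omega
  · rw [ret_of_ne h]
    exact ⟨hne, hS, by omega⟩

open Classical in
noncomputable def dd (n : ℕ) (S : Set X) : ℝ := if S.ncard = n then S.infsep else 0

lemma ret_dist {n : ℕ} {S : Set X} (hS : S.Finite) :
    hausdorffDist (ret n S) S ≤ 2 * n * dd n S := by
  unfold dd
  by_cases h : S.ncard = n
  · rw [ret_of hS h, if_pos h]
    have := S.infsep_nonneg
    refine hausdorffDist_le_of_mem_dist (by positivity) ?_ ?_
    · rintro _ ⟨x, hx, rfl⟩
      exact ⟨x, hx, by rw [dist_comm]; exact pt_near hS h.le hx⟩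
    · exact fun x hx => ⟨_, mem_image_of_mem _ hx, pt_near hS h.le hx⟩
  · rw [ret_of_ne h, if_neg h]; simp

lemma ret_close {n : ℕ} (h2 : 2 ≤ n) {S T : Set X} (hS : S.Finite) (hT : T.Finite)
    (hSn : S.ncard = n) (hTn : T.ncard ≤ n) (hTne : T.Nonempty)
    (h : 4 * hausdorffDist S T < S.infsep) :
    hausdorffDist (ret n S) (ret n T) ≤ (1 + 48 * n ^ 2 * (n + 1)) * hausdorffDist S T := by
  classical
  set ε := hausdorffDist S T with hε
  have ε0 : 0 ≤ ε := hausdorffDist_nonneg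
  have hnt : S.Nontrivial := by
      have := hS.to_subtype
      exact one_lt_ncard_iff_nontrivial.1 (by omega)
  have fin := hausdorffEDist_ne_top_of_nonempty_of_bounded hnt.nonempty hTne hS.isBounded
    hT.isBounded
  have ex : ∀ x : X, ∃ y, x ∈ S → y ∈ T ∧ dist x y ≤ ε := by
    intro x
    obtain ⟨y, hy, e⟩ := hT.isCompact.exists_infDist_eq_dist hTne x
    exact ⟨y, fun hx => ⟨hy, e ▸ infDist_le_hausdorffDist_of_mem hx fin⟩⟩
  choose f hf using ex
  have tri : ∀ a ∈ S, ∀ b ∈ S, dist a b ≤ dist (f a) (f b) + 2 * ε ∧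
      dist (f a) (f b) ≤ dist a b + 2 * ε := by
    intro a ha b hb
    have h1 := dist_triangle4 a (f a) (f b) b
    have h2 := dist_triangle4 (f a) a b (f b)
    have h3 := (hf a ha).2
    have h4 := (hf b hb).2
    rw [dist_comm (f b) b] at h1
    rw [dist_comm (f a) a] at h2
    constructor <;> linarith
  have inj : InjOn f S := by
    intro a ha b hb hab
    by_contra hne
    have h1 := infsep_le_dist_of_mem ha hb hne
    have h2 := (tri a ha b hb).1
    rw [hab, dist_self] at h2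
    linarith
  have himg : f '' S = T := eq_of_subset_of_ncard_le (by
    rintro _ ⟨x, hx, rfl⟩; exact (hf x hx).1) (by rw [inj.ncard_image]; omega) hT
  have hTn' : T.ncard = n := by rw [← himg, inj.ncard_image, hSn]
  have hntT : T.Nontrivial := by
      have := hT.to_subtype
      exact one_lt_ncard_iff_nontrivial.1 (by omega)
  have d1 : S.infsep ≤ T.infsep + 2 * ε := by
    obtain ⟨a, ha, b, hb, hab, hd⟩ := hT.infsep_exists_of_nontrivial hntT
    rw [← himg] at ha hb
    obtain ⟨a, ha', rfl⟩ := ha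
    obtain ⟨b, hb', rfl⟩ := hb
    have h1 := infsep_le_dist_of_mem ha' hb' (fun e => hab (by rw [e]))
    have h2 := (tri a ha' b hb').1
    linarith
  have d2 : T.infsep ≤ S.infsep + 2 * ε := by
    obtain ⟨a, ha, b, hb, hab, hd⟩ := hS.infsep_exists_of_nontrivial hnt
    have h1 := infsep_le_dist_of_mem (hf a ha).1 (hf b hb).1 (fun e => hab (inj ha hb e))
    have h2 := (tri a ha b hb).2
    linarith
  have δ0 : 0 < S.infsep := by linarith
  set δ := S.infsep with hδ
  have hg : ∀ y ∈ T, Function.invFunOn f S y ∈ S ∧ dist y (Function.invFunOn f S y) ≤ ε := by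
    intro y hy
    rw [← himg] at hy
    obtain ⟨x, hx, rfl⟩ := hy
    rw [inj.leftInvOn_invFunOn hx, dist_comm]
    exact ⟨hx, (hf x hx).2⟩
  have η0 : 0 ≤ 12 * ε / δ := by positivity
  have e1 : 12 * ε / δ * δ = 12 * ε := div_mul_cancel₀ _ δ0.ne'
  have lip : ∀ i ∈ S, ∀ j ∈ S, |phi S i j - phi T (f i) (f j)| ≤ 12 * ε / δ := by
    intro i hi j hj
    have h1 := phi_lip hf ε0 η0 d1 (by
      have : 12 * ε / δ * (δ / 2) ≤ 12 * ε / δ * T.infsep := by gcongr; linarith
      linarith) i j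
    have h2 := phi_lip hg ε0 η0 d2 (by rw [e1]; linarith) (f i) (f j)
    rw [inj.leftInvOn_invFunOn hi, inj.leftInvOn_invFunOn hj] at h2
    rw [abs_le]; constructor <;> linarith
  have n2 : (2 : ℝ) ≤ n := by exact_mod_cast h2
  have key : ∀ i ∈ S, dist (pt hS i) (pt hT (f i)) ≤ (1 + 48 * n ^ 2 * (n + 1)) * ε := by
    intro i hi
    have eT : hT.toFinset = hS.toFinset.image f := by
      ext y
      simp only [Finite.mem_toFinset, Finset.mem_image]
      rw [← himg]; rfl
    have inj' : InjOn f (hS.toFinset : Set X) := by simpa using inj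
    have e2 : pt hT (f i) = avg hS.toFinset (fun j => phi T (f i) (f j)) f := by
      unfold pt avg
      rw [eT, Finset.sum_image inj', Finset.sum_image inj']
      rfl
    have hc : (hS.toFinset.card : ℝ) = n := by
      rw [← ncard_eq_toFinset_card S hS, hSn]
    have := avg_lip hS.toFinset (phi S i) (fun j => phi T (f i) (f j)) id f
      (fun j _ => phi_nonneg _ _ _) (fun j _ => phi_le _ _ _)
      (sum_ge _ _ (fun j _ => phi_nonneg _ _ _) (hS.mem_toFinset.2 hi) (phi_self S i))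
      (sum_ge _ _ (fun j _ => phi_nonneg _ _ _) (hS.mem_toFinset.2 hi) (phi_self T (f i)))
      (12 * ε / δ) ε η0 (fun j hj => lip i hi j (hS.mem_toFinset.1 hj))
      (fun j hj => by rw [id, ← dist_eq_norm]; exact (hf j (hS.mem_toFinset.1 hj)).2)
      i (4 * n * δ) (by positivity) (fun j hj h => by
        rw [id, ← dist_eq_norm, dist_comm]
        have hj' := hS.mem_toFinset.1 hj
        rcases h with h | h
        · have := phi_near hS hSn.le hi h
          nlinarith
        · have h1 := phi_near hT hTn (hf i hi).1 h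
          have h3 := (tri i hi j hj').1
          have h4 : 2 * n * T.infsep ≤ 2 * n * (3 / 2 * δ) := by gcongr; linarith
          nlinarith)
    rw [dist_eq_norm, e2]
    refine this.trans (le_of_eq ?_)
    rw [hc]; field_simp; ring
  rw [ret_of hS hSn, ret_of hT hTn']
  refine hausdorffDist_le_of_mem_dist (by positivity) ?_ ?_
  · rintro _ ⟨x, hx, rfl⟩
    exact ⟨_, mem_image_of_mem _ (hf x hx).1, key x hx⟩
  · rintro _ ⟨y, hy, rfl⟩
    rw [← himg] at hy
    obtain ⟨x, hx, rfl⟩ := hy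
    exact ⟨_, mem_image_of_mem _ hx, by rw [dist_comm]; exact key x hx⟩

lemma ret_lip {n : ℕ} (h2 : 2 ≤ n) {S T : Set X} (hSne : S.Nonempty) (hS : S.Finite)
    (hSn : S.ncard ≤ n) (hTne : T.Nonempty) (hT : T.Finite) (hTn : T.ncard ≤ n) :
    hausdorffDist (ret n S) (ret n T) ≤ (1 + 48 * n ^ 2 * (n + 1)) * hausdorffDist S T := by
  have ε0 : 0 ≤ hausdorffDist S T := hausdorffDist_nonneg
  by_cases h1 : 4 * hausdorffDist S T < dd n S
  · unfold dd at h1
    split_ifs at h1 with h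
    · exact ret_close h2 hS hT h hTn hTne h1
    · linarith
  by_cases h3 : 4 * hausdorffDist S T < dd n T
  · unfold dd at h3
    split_ifs at h3 with h
    · rw [hausdorffDist_comm] at h3
      rw [hausdorffDist_comm, hausdorffDist_comm (s := S)]
      exact ret_close h2 hT hS h hSn hSne h3
    · linarith
  push Not at h1 h3
  obtain ⟨a1, a2, -⟩ := ret_card h2 hSne hS hSn
  have t1 := hausdorffDist_triangle (u := ret n T)
    (hausdorffEDist_ne_top_of_nonempty_of_bounded a1 hSne a2.isBounded hS.isBounded)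
  have t2 := hausdorffDist_triangle (u := ret n T)
    (hausdorffEDist_ne_top_of_nonempty_of_bounded hSne hTne hS.isBounded hT.isBounded)
  have t3 := ret_dist (n := n) hS
  have t4 := ret_dist (n := n) hT
  rw [hausdorffDist_comm] at t4
  have n2 : (2 : ℝ) ≤ n := by exact_mod_cast h2
  have t5 : 2 * n * dd n S ≤ 2 * n * (4 * hausdorffDist S T) := by gcongr
  have t6 : 2 * n * dd n T ≤ 2 * n * (4 * hausdorffDist S T) := by gcongr
  have t7 : (16 * n) * hausdorffDist S T ≤ (48 * n ^ 2 * (n + 1)) * hausdorffDist S T :=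
    mul_le_mul_of_nonneg_right (by nlinarith [sq_nonneg (n : ℝ), mul_pos (show (0:ℝ) < n by linarith) (show (0:ℝ) < n ^ 2 by positivity)]) ε0
  linarith

end Pool.Agent.H.MP_c4f5bb_an
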